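import Mathlib
import Pool.Agent.R652.GIG

/-!
# The emptiness problem for global index grammars is undecidable
-/

set_option autoImplicit false

namespace Pool.Agent.Results.MP_c0e261_lc.EmptinessUndecidable

open Pool.Agent.R652 Pool.Agent.R652.GIG

/-- No algorithm decides, given a global index grammar `G`, whether the language generated by `G`
is empty. -/
theorem result : ¬ ComputablePred fun G : Grammar => Lang G = ∅ := by
  have h : ¬ ComputablePred fun G : Grammar => (Lang G).Nonempty := by
    apply PCPBase.not_computable_of_reduces
    exact ⟨fun p => gr p.1 p.2, primrec_gr.to_comp, fun H G _ => sol_iff H G⟩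
  intro hc
  exact h (hc.not.of_eq fun G => Set.nonempty_iff_ne_empty.symm)

end Pool.Agent.Results.MP_c0e261_lc.EmptinessUndecidable
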